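import Pool.Agent.TH198.AT.Conv

/-!
# Values of the Parisi functional at the one-step and two-step distribution functions
-/

set_option autoImplicit false

open MeasureTheory ProbabilityTheory Set Filter Topology

namespace Pool.TH198.AT

namespace VALx

theorem E1_const (c : ℝ) : E1 (fun _ => c) = c := by
  unfold E1
  simp

theorem piece (F : ℝ → ℝ) (c a b : ℝ) (hab : a ≤ b) (h : ∀ s ∈ Ioo a b, F s = c) :
    IntervalIntegrable (fun s => F s * s) volume a b ∧
      ∫ s in a..b, F s * s = c * (b ^ 2 - a ^ 2) / 2 := by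
  have he : EqOn (fun s : ℝ => c * s) (fun s => F s * s) (uIoo a b) := by
    intro s hs
    rw [uIoo_of_le hab] at hs
    simp only [h s hs]
  constructor
  · have h1 : IntervalIntegrable (fun s : ℝ => c * s) volume a b :=
      (continuous_const.mul continuous_id).intervalIntegrable _ _
    exact h1.congr_uIoo he
  · rw [← intervalIntegral.integral_congr_uIoo he, intervalIntegral.integral_const_mul,
      integral_id]
    ring

theorem int_one (q : ℝ) (h0 : 0 ≤ q) (h1 : q ≤ 1) :
    ∫ t in (0 : ℝ)..1, one q t * t = (1 - q ^ 2) / 2 := by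
  obtain ⟨i1, e1⟩ := piece (one q) 0 0 q h0 (fun s hs => by
    unfold one; rw [if_neg (not_le.2 hs.2)])
  obtain ⟨i2, e2⟩ := piece (one q) 1 q 1 h1 (fun s hs => by
    unfold one; rw [if_pos hs.1.le])
  rw [← intervalIntegral.integral_add_adjacent_intervals i1 i2, e1, e2]
  ring

theorem int_two (q m t : ℝ) (h0 : 0 ≤ q) (h1 : q < t) (h2 : t ≤ 1) :
    ∫ s in (0 : ℝ)..1, two q m t s * s = (m * (t ^ 2 - q ^ 2) + (1 - t ^ 2)) / 2 := by
  obtain ⟨i1, e1⟩ := piece (two q m t) 0 0 q h0 (fun s hs => by
    unfold two; rw [if_pos hs.2])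
  obtain ⟨i2, e2⟩ := piece (two q m t) m q t h1.le (fun s hs => by
    unfold two; rw [if_neg (not_lt.2 hs.1.le), if_pos hs.2])
  obtain ⟨i3, e3⟩ := piece (two q m t) 1 t 1 h2 (fun s hs => by
    unfold two; rw [if_neg (not_lt.2 (h1.le.trans hs.1.le)), if_neg (not_lt.2 hs.1.le)])
  rw [← intervalIntegral.integral_add_adjacent_intervals (i1.trans i2) i3,
    ← intervalIntegral.integral_add_adjacent_intervals i1 i2, e1, e2, e3]
  ring

end VALx

theorem t_VAL : St_VAL := by
  refine ⟨fun β h q hβ h0 h1 => ?_, fun β h q m t hβ h0 h1 h2 hm hm1 => ?_⟩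
  · unfold PF
    rw [VALx.int_one q h0 h1]
    have hf : f0 β q 0 h = E1 (fun z => Real.log (Real.cosh (h + √(2 * β ^ 2 * q) * z))) +
        β ^ 2 * (1 - q) := by
      unfold f0
      rcases h0.eq_or_lt with hq | hq
      · subst hq
        simp [VALx.E1_const]
      · rw [if_neg (not_le.2 hq), sub_zero]
    rw [hf]
    ring
  · unfold PF
    rw [VALx.int_two q m t h0 h1 h2]
    have hf : f2 β q m t 0 h =
        E1 (fun z => UH m (2 * β ^ 2 * (t - q)) (h + √(2 * β ^ 2 * q) * z)) +
          β ^ 2 * (1 - t) := by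
      unfold f2
      have ht : 0 < t := h0.trans_lt h1
      rw [if_neg (not_le.2 ht)]
      rcases h0.eq_or_lt with hq | hq
      · subst hq
        simp [VALx.E1_const]
      · rw [if_neg (not_le.2 hq), sub_zero]
    rw [hf]
    ring

end Pool.TH198.AT
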